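import Pool.Agent.W717.UR.Stm

/-!
Sign patterns with small aperiodic autocorrelations (subtask UR-SIGN of helper717's project).
-/

namespace Pool.Agent.W58.UR
open Pool.Agent.W717.UR Finset

/-- aperiodic autocorrelation -/
def AC (e : ℕ → ℤ) (N d : ℕ) : ℤ := ∑ q ∈ Finset.range (N - d), e q * e (q + d)

theorem AC_update (e : ℕ → ℤ) (N d : ℕ) (s : ℤ) (hd : 1 ≤ d) (hdN : d ≤ N) :
    AC (Function.update e N s) (N + 1) d = AC e N d + e (N - d) * s := by
  unfold AC
  have h1 : N + 1 - d = (N - d) + 1 := by omega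
  rw [h1, Finset.sum_range_succ]
  congr 1
  · refine Finset.sum_congr rfl (fun q hq => ?_)
    rw [Finset.mem_range] at hq
    rw [Function.update_of_ne (by omega), Function.update_of_ne (by omega)]
  · have h2 : N - d + d = N := by omega
    rw [h2, Function.update_self, Function.update_of_ne (by omega)]

theorem cosh_avg (t : ℝ) (A c : ℤ) (hc : c = 1 ∨ c = -1) :
    Real.cosh (t * ((A + c * 1 : ℤ) : ℝ)) + Real.cosh (t * ((A + c * (-1) : ℤ) : ℝ)) =
      2 * (Real.cosh t * Real.cosh (t * (A : ℝ))) := by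
  rcases hc with rfl | rfl
  · have e1 : t * ((A + 1 * 1 : ℤ) : ℝ) = t * A + t := by push_cast; ring
    have e2 : t * ((A + 1 * (-1) : ℤ) : ℝ) = t * A - t := by push_cast; ring
    rw [e1, e2, Real.cosh_add, Real.cosh_sub]; ring
  · have e1 : t * ((A + (-1) * 1 : ℤ) : ℝ) = t * A - t := by push_cast; ring
    have e2 : t * ((A + (-1) * (-1) : ℤ) : ℝ) = t * A + t := by push_cast; ring
    rw [e1, e2, Real.cosh_add, Real.cosh_sub]; ring

theorem step (t : ℝ) (N : ℕ) : ∃ e : ℕ → ℤ, (∀ q, e q = 1 ∨ e q = -1) ∧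
    ∑ d ∈ Finset.Ico 1 N, Real.cosh (t * (AC e N d : ℝ)) ≤ N * Real.cosh t ^ N := by
  induction N with
  | zero => exact ⟨fun _ => 1, fun _ => Or.inl rfl, by simp⟩
  | succ N ih =>
    obtain ⟨e, he, hs⟩ := ih
    have hc1 : 1 ≤ Real.cosh t := Real.one_le_cosh t
    have hsum : ∑ d ∈ Finset.Ico 1 (N + 1), Real.cosh (t * (AC e N d : ℝ)) ≤
        N * Real.cosh t ^ N + 1 := by
      rcases Nat.eq_zero_or_pos N with h0 | h0
      · subst h0; simp
      · rw [Finset.sum_Ico_succ_top h0]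
        have : AC e N N = 0 := by unfold AC; simp
        rw [this]
        simpa using hs
    have hav : ∑ d ∈ Finset.Ico 1 (N + 1),
          Real.cosh (t * (AC (Function.update e N 1) (N + 1) d : ℝ)) +
        ∑ d ∈ Finset.Ico 1 (N + 1),
          Real.cosh (t * (AC (Function.update e N (-1)) (N + 1) d : ℝ)) =
        2 * (Real.cosh t * ∑ d ∈ Finset.Ico 1 (N + 1), Real.cosh (t * (AC e N d : ℝ))) := by
      rw [← Finset.sum_add_distrib, Finset.mul_sum, Finset.mul_sum]
      refine Finset.sum_congr rfl (fun d hd => ?_)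
      rw [Finset.mem_Ico] at hd
      rw [AC_update e N d 1 hd.1 (by omega), AC_update e N d (-1) hd.1 (by omega)]
      exact cosh_avg t (AC e N d) (e (N - d)) (he _)
    have hpm : ∀ s : ℤ, (s = 1 ∨ s = -1) → ∀ q, Function.update e N s q = 1 ∨
        Function.update e N s q = -1 := by
      intro s hs' q
      by_cases h : q = N
      · rw [h, Function.update_self]; exact hs'
      · rw [Function.update_of_ne h]; exact he q
    have hpow : 1 ≤ Real.cosh t ^ N := one_le_pow₀ hc1
    have hbd : Real.cosh t * ∑ d ∈ Finset.Ico 1 (N + 1), Real.cosh (t * (AC e N d : ℝ)) ≤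
        ((N + 1 : ℕ) : ℝ) * Real.cosh t ^ (N + 1) := by
      have h1 : Real.cosh t * ∑ d ∈ Finset.Ico 1 (N + 1), Real.cosh (t * (AC e N d : ℝ)) ≤
          Real.cosh t * (N * Real.cosh t ^ N + 1) :=
        mul_le_mul_of_nonneg_left hsum (by linarith)
      have h2 : Real.cosh t * (N * Real.cosh t ^ N + 1) ≤
          ((N + 1 : ℕ) : ℝ) * Real.cosh t ^ (N + 1) := by
        push_cast
        rw [pow_succ]
        nlinarith [mul_le_mul_of_nonneg_left hpow (by linarith : (0:ℝ) ≤ Real.cosh t)]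
      linarith
    by_cases hlt : ∑ d ∈ Finset.Ico 1 (N + 1),
          Real.cosh (t * (AC (Function.update e N 1) (N + 1) d : ℝ)) ≤
          ((N + 1 : ℕ) : ℝ) * Real.cosh t ^ (N + 1)
    · exact ⟨_, hpm 1 (Or.inl rfl), hlt⟩
    · refine ⟨_, hpm (-1) (Or.inr rfl), ?_⟩
      push Not at hlt
      linarith

theorem AC_change (e e' : ℕ → ℤ) (he : ∀ q, e q = 1 ∨ e q = -1) (he' : ∀ q, e' q = 1 ∨ e' q = -1)
    (G : ℕ) (hG : ∀ q, G < q → e' q = e q) (N d : ℕ) :
    |AC e' N d - AC e N d| ≤ 2 * (G + 1) := by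
  have hterm : ∀ q, |e' q * e' (q + d) - e q * e (q + d)| ≤ if q ∈ Finset.range (G + 1) then 2 else 0 := by
    intro q
    by_cases h : q ∈ Finset.range (G + 1)
    · rw [if_pos h]
      rcases he q with h1 | h1 <;> rcases he (q + d) with h2 | h2 <;> rcases he' q with h3 | h3 <;>
        rcases he' (q + d) with h4 | h4 <;> rw [h1, h2, h3, h4] <;> norm_num
    · rw [if_neg h]
      rw [Finset.mem_range] at h
      rw [hG q (by omega), hG (q + d) (by omega)]
      simp
  unfold AC
  rw [← Finset.sum_sub_distrib]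
  calc |∑ q ∈ Finset.range (N - d), (e' q * e' (q + d) - e q * e (q + d))|
      ≤ ∑ q ∈ Finset.range (N - d), |e' q * e' (q + d) - e q * e (q + d)| :=
        Finset.abs_sum_le_sum_abs _ _
    _ ≤ ∑ q ∈ Finset.range (N - d), (if q ∈ Finset.range (G + 1) then (2:ℤ) else 0) :=
        Finset.sum_le_sum (fun q _ => hterm q)
    _ ≤ ∑ q ∈ Finset.range (G + 1), (2 : ℤ) := by
        rw [← Finset.sum_filter]
        refine Finset.sum_le_sum_of_subset_of_nonneg ?_ (fun _ _ _ => by norm_num)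
        intro q hq
        exact (Finset.mem_filter.mp hq).2
    _ = 2 * (G + 1) := by
        rw [Finset.sum_const, Finset.card_range]
        simp [mul_comm]

theorem AC_small (t : ℝ) (ht : 0 < t) (N : ℕ) (e : ℕ → ℤ)
    (hs : ∑ d ∈ Finset.Ico 1 N, Real.cosh (t * (AC e N d : ℝ)) ≤ N * Real.cosh t ^ N)
    (hN : Real.log (2 * N) ≤ t ^ 2 / 2 * N) (d : ℕ) (hd : 1 ≤ d) :
    |(AC e N d : ℝ)| ≤ t * N := by
  by_cases hdN : N ≤ d
  · have : AC e N d = 0 := by
      unfold AC
      rw [Nat.sub_eq_zero_of_le hdN]; simp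
    rw [this]; simp; positivity
  · push Not at hdN
    have hNpos : (0:ℝ) < N := by
      have : 0 < N := by omega
      exact_mod_cast this
    have h1 : Real.cosh (t * (AC e N d : ℝ)) ≤ N * Real.cosh t ^ N := by
      refine le_trans ?_ hs
      exact Finset.single_le_sum (f := fun d => Real.cosh (t * (AC e N d : ℝ)))
        (fun i _ => (Real.cosh_pos _).le) (Finset.mem_Ico.mpr ⟨hd, hdN⟩)
    have h2 : Real.exp (|t * (AC e N d : ℝ)|) / 2 ≤ Real.cosh (t * (AC e N d : ℝ)) := by
      rw [← Real.cosh_abs, Real.cosh_eq]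
      have := Real.exp_pos (-|t * (AC e N d : ℝ)|)
      linarith
    have h3 : Real.cosh t ^ N ≤ Real.exp (t ^ 2 / 2 * N) := by
      calc Real.cosh t ^ N ≤ (Real.exp (t ^ 2 / 2)) ^ N :=
            pow_le_pow_left₀ (Real.cosh_pos t).le (Real.cosh_le_exp_half_sq t) N
        _ = Real.exp (t ^ 2 / 2 * N) := by rw [← Real.exp_nat_mul]; ring_nf
    have h4 : Real.exp (|t * (AC e N d : ℝ)|) ≤ Real.exp (Real.log (2 * N) + t ^ 2 / 2 * N) := by
      rw [Real.exp_add, Real.exp_log (by positivity)]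
      have : (N : ℝ) * Real.cosh t ^ N ≤ N * Real.exp (t ^ 2 / 2 * N) :=
        mul_le_mul_of_nonneg_left h3 hNpos.le
      linarith
    have h5 := Real.exp_le_exp.mp h4
    rw [abs_mul, abs_of_pos ht] at h5
    have h6 : t * |(AC e N d : ℝ)| ≤ t * (t * N) := by nlinarith
    exact le_of_mul_le_mul_left h6 ht

theorem sign : S_SIGN := by
  intro δ hδ G N0
  set δ' : ℝ := min δ (1 / 4) with hδ'
  have hδ'0 : 0 < δ' := lt_min hδ (by norm_num)
  have hδ'1 : δ' ≤ δ := min_le_left _ _
  have hδ'2 : δ' ≤ 1 / 4 := min_le_right _ _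
  set t : ℝ := δ' / 2 with ht
  have ht0 : 0 < t := by positivity
  -- large N
  have hlog : ∀ᶠ x : ℝ in Filter.atTop, Real.log x ≤ t ^ 2 / 4 * x := by
    have := Real.isLittleO_log_id_atTop.bound (show 0 < t ^ 2 / 4 by positivity)
    filter_upwards [this, Filter.eventually_ge_atTop (1:ℝ)] with x hx hx1
    rw [Real.norm_eq_abs, Real.norm_eq_abs, id, abs_of_nonneg (Real.log_nonneg hx1),
      abs_of_nonneg (by linarith)] at hx
    exact hx
  obtain ⟨X, hX⟩ := Filter.eventually_atTop.mp hlog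
  obtain ⟨N1, hN1⟩ := exists_nat_ge X
  obtain ⟨N2, hN2⟩ := exists_nat_ge (8 * ((G : ℝ) + 1) / δ')
  set N : ℕ := N0 + N1 + N2 + 3 with hN
  have hNlog : Real.log (2 * N) ≤ t ^ 2 / 2 * N := by
    have h1 : X ≤ 2 * (N : ℝ) := by
      have : (N1 : ℝ) ≤ N := by exact_mod_cast (by omega : N1 ≤ N)
      have h0 : (0:ℝ) ≤ N := by positivity
      linarith
    have := hX _ h1
    linarith
  have hNG : 2 * ((G : ℝ) + 1) ≤ δ' / 4 * N := by
    have h1 : (N2 : ℝ) ≤ N := by exact_mod_cast (by omega : N2 ≤ N)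
    have h2 : 8 * ((G : ℝ) + 1) / δ' ≤ N := le_trans hN2 h1
    rw [div_le_iff₀ hδ'0] at h2
    linarith
  obtain ⟨e, he, hs⟩ := step t N
  let e' : ℕ → ℤ := fun q => if q ≤ G then 1 else e q
  have he' : ∀ q, e' q = 1 ∨ e' q = -1 := by
    intro q
    by_cases h : q ≤ G
    · left; simp [e', h]
    · simp only [e', if_neg h]; exact he q
  have hsm : ∀ d, 1 ≤ d → |(AC e' N d : ℝ)| ≤ δ' * N := by
    intro d hd
    have h1 := AC_small t ht0 N e hs hNlog d hd
    have h2 : |((AC e' N d - AC e N d : ℤ) : ℝ)| ≤ 2 * ((G : ℝ) + 1) := by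
      have := AC_change e e' he he' G (fun q hq => by simp [e', hq]) N d
      rw [← Int.cast_abs]
      exact_mod_cast this
    have h3 : (AC e' N d : ℝ) = ((AC e' N d - AC e N d : ℤ) : ℝ) + (AC e N d : ℝ) := by
      push_cast; ring
    rw [h3]
    refine le_trans (abs_add_le _ _) ?_
    have h4 : (0:ℝ) ≤ N := by positivity
    have h5 : 0 ≤ δ' * N := by positivity
    have : t * N = δ' / 2 * N := by rw [ht]
    nlinarith
  refine ⟨N, by omega, e', he', fun q hq => by simp [e', hq], ?_, ?_⟩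
  · by_contra hno
    push Not at hno
    have hall : ∀ q, q < N → e' q = 1 := by
      intro q hq
      rcases he' q with h | h
      · exact h
      · exact absurd h (hno q hq)
    have h1 : AC e' N 1 = ((N - 1 : ℕ) : ℤ) := by
      unfold AC
      rw [Finset.sum_congr rfl (fun q hq => ?_) (g := fun _ => (1:ℤ))]
      · simp
      · rw [Finset.mem_range] at hq
        rw [hall q (by omega), hall (q + 1) (by omega)]; norm_num
    have h2 := hsm 1 le_rfl
    rw [h1] at h2
    have hN3 : (3:ℝ) ≤ N := by exact_mod_cast (by omega : 3 ≤ N)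
    have h3 : (((N - 1 : ℕ) : ℤ) : ℝ) = (N : ℝ) - 1 := by
      have : 1 ≤ N := by omega
      push_cast [Nat.cast_sub this]
      ring
    rw [h3, abs_of_nonneg (by linarith)] at h2
    nlinarith
  · intro d hd
    have h1 := hsm d hd
    unfold AC at h1
    have h2 : (0:ℝ) ≤ N := by positivity
    have h3 : δ' * N ≤ δ * N := mul_le_mul_of_nonneg_right hδ'1 h2
    exact le_trans h1 h3

end Pool.Agent.W58.UR
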